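import Mathlib

namespace Pool.Agent.Results.MP_49fec2_al.NotResidual

universe u v

/-! ### Varieties of groups -/

/-- The word `w`, in the variables `0, 1, 2, …`, is a law of the group `G`. -/
def Law (w : FreeGroup ℕ) (G : Type u) [Group G] : Prop :=
  ∀ f : ℕ → G, FreeGroup.lift f w = 1

/-- `G` belongs to the variety defined by the set of laws `W`. -/
def InVariety (W : Set (FreeGroup ℕ)) (G : Type u) [Group G] : Prop :=
  ∀ w ∈ W, Law w G

/-- The verbal subgroup of the free group of rank `m` for the variety defined by `W`: the normal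
closure of all values of the words in `W`. -/
def verbal (W : Set (FreeGroup ℕ)) (m : ℕ) : Subgroup (FreeGroup (Fin m)) :=
  Subgroup.normalClosure {g | ∃ w ∈ W, ∃ f : ℕ → FreeGroup (Fin m), g = FreeGroup.lift f w}

instance (W : Set (FreeGroup ℕ)) (m : ℕ) : (verbal W m).Normal :=
  Subgroup.normalClosure_normal

/-- The relatively free group of rank `m` of the variety defined by `W`. -/
abbrev RelFree (W : Set (FreeGroup ℕ)) (m : ℕ) : Type := FreeGroup (Fin m) ⧸ verbal W m

/-- The relatively free group of rank `k` generates the variety defined by `W`: each of its laws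
holds in every group of the variety. -/
def RankGenerates (W : Set (FreeGroup ℕ)) (k : ℕ) : Prop :=
  ∀ w : FreeGroup ℕ, Law w (RelFree W k) →
    ∀ (H : Type u) [Group H], InVariety W H → Law w H

/-- `G` can be generated by at most `k` elements. -/
def KGenerator (k : ℕ) (G : Type u) [Group G] : Prop :=
  ∃ s : Fin k → G, Subgroup.closure (Set.range s) = ⊤

/-- Every nontrivial element of `G` survives in some `k`-generator quotient of `G`. -/
def ResiduallyKGenerator (k : ℕ) (G : Type u) [Group G] : Prop :=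
  ∀ g : G, g ≠ 1 → ∃ (N : Subgroup G) (_ : N.Normal), g ∉ N ∧ KGenerator k (G ⧸ N)

/-! ### Group-theoretic core -/


/-- additive core -/
theorem core {M : Type*} [AddCommGroup M] (h3 : ∀ w : M, (3 : ℤ) • w = 0) (α β : M →+ M)
    (hα : ∀ w, α (α w) = w) (hβ : ∀ w, β (β w) = w) (hαβ : ∀ w, α (β w) = β (α w))
    (s t c : M) (hs : α s = s) (ht : β t = t) (hsc : β s = c + α c + s)
    (htc : α t = -c + -(β c) + t)
    (hgen : ∀ B : AddSubgroup M, s ∈ B → t ∈ B → c ∈ B → (∀ w ∈ B, α w ∈ B) →
      (∀ w ∈ B, β w ∈ B) → ∀ w, w ∈ B)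
    (p q : ℤ) (hp : p = 1 ∨ p = -1) (hq : q = 1 ∨ q = -1) (hpq : ¬ (p = 1 ∧ q = 1))
    (m n : M) (hm : α m = p • m) (hm' : β m = q • m) (hn : α n = p • n) (hn' : β n = q • n) :
    ∃ e : M, ∃ i j : ℤ, m = i • e ∧ n = j • e := by
  have hp2 : p * p = 1 := by rcases hp with rfl | rfl <;> norm_num
  have hq2 : q * q = 1 := by rcases hq with rfl | rfl <;> norm_num
  let π : M →+ M := AddMonoidHom.id M + p • α + q • β + (p * q) • (α.comp β)
  have hπ : ∀ w, π w = w + p • α w + q • β w + (p * q) • α (β w) := fun w => rfl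
  have hπα : ∀ w, π (α w) = p • π w := by
    intro w
    rw [hπ, hπ, hα, ← hαβ w, hα]
    simp only [smul_add, smul_smul]
    rw [show p * (p * q) = q by rw [← mul_assoc, hp2, one_mul], hp2, one_smul]
    abel
  have hπβ : ∀ w, π (β w) = q • π w := by
    intro w
    rw [hπ, hπ, hβ, hαβ w]
    simp only [smul_add, smul_smul]
    rw [show q * (p * q) = p by rw [mul_comm p q, ← mul_assoc, hq2, one_mul], hq2, one_smul,
      mul_comm q p]
    abel
  have h2 : ∀ w : M, (2 : ℤ) • w = 0 → w = 0 := by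
    intro w hw
    have : w = (3 : ℤ) • w - (2 : ℤ) • w := by rw [← sub_smul]; norm_num
    rw [this, hw, h3, sub_zero]
  have hπm : ∀ w : M, α w = p • w → β w = q • w → π w = w := by
    intro w h1 h2'
    rw [hπ, h1, h2', map_zsmul, h1]
    simp only [smul_smul]
    rw [hp2, hq2, show p * q * (q * p) = 1 by
      rw [show p * q * (q * p) = p * (q * q) * p by ring, hq2, mul_one, hp2]]
    have : w + (1 : ℤ) • w + (1 : ℤ) • w + (1 : ℤ) • w = (3 : ℤ) • w + w := by
      simp only [one_smul]
      have : (3 : ℤ) • w = w + w + w := by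
        rw [show (3 : ℤ) = 1 + 1 + 1 by norm_num, add_smul, add_smul, one_smul]
      rw [this]
    rw [this, h3, zero_add]
  have main : ∀ e : M, π s ∈ AddSubgroup.zmultiples e → π t ∈ AddSubgroup.zmultiples e →
      π c ∈ AddSubgroup.zmultiples e → ∃ e : M, ∃ i j : ℤ, m = i • e ∧ n = j • e := by
    intro e h1 h2' h3'
    have hB := hgen ((AddSubgroup.zmultiples e).comap π) h1 h2' h3' (by
      intro w hw
      rw [AddSubgroup.mem_comap] at hw ⊢
      rw [hπα]
      exact AddSubgroup.zsmul_mem _ hw _) (by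
      intro w hw
      rw [AddSubgroup.mem_comap] at hw ⊢
      rw [hπβ]
      exact AddSubgroup.zsmul_mem _ hw _)
    have hm1 := hB m
    have hn1 := hB n
    rw [AddSubgroup.mem_comap, hπm m hm hm'] at hm1
    rw [AddSubgroup.mem_comap, hπm n hn hn'] at hn1
    obtain ⟨i, hi⟩ := AddSubgroup.mem_zmultiples_iff.mp hm1
    obtain ⟨j, hj⟩ := AddSubgroup.mem_zmultiples_iff.mp hn1
    exact ⟨e, i, j, hi.symm, hj.symm⟩
  have hps : p = -1 → π s = 0 := by
    intro hp
    have h := hπα s
    rw [hs, hp, neg_smul, one_smul] at h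
    apply h2
    rw [two_smul]
    nth_rewrite 2 [h]
    rw [add_neg_cancel]
  have hqt : q = -1 → π t = 0 := by
    intro hq
    have h := hπβ t
    rw [ht, hq, neg_smul, one_smul] at h
    apply h2
    rw [two_smul]
    nth_rewrite 2 [h]
    rw [add_neg_cancel]
  rcases hp with hp | hp <;> rcases hq with hq | hq
  · exact absurd ⟨hp, hq⟩ hpq
  · -- p = 1, q = -1
    apply main (π s) (AddSubgroup.mem_zmultiples _)
    · rw [hqt hq]
      exact AddSubgroup.zero_mem _
    · have h := hπβ s
      rw [hsc, map_add, map_add, hπα, hq, hp, neg_smul, one_smul, one_smul] at h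
      have h4 : π c = - π s := by
        have : (2 : ℤ) • (π c + π s) = 0 := by
          rw [two_smul]
          have h5 : π c + π s + (π c + π s) = (π c + π c + π s) + π s := by abel
          rw [h5, h, neg_add_cancel]
        have h6 := h2 _ this
        exact eq_neg_of_add_eq_zero_left h6
      rw [h4]
      exact AddSubgroup.neg_mem _ (AddSubgroup.mem_zmultiples _)
  · -- p = -1, q = 1
    apply main (π t)
    · rw [hps hp]
      exact AddSubgroup.zero_mem _
    · exact AddSubgroup.mem_zmultiples _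
    · have h := hπα t
      rw [htc, map_add, map_add, map_neg, map_neg, hπβ, hq, hp, neg_smul, one_smul, one_smul] at h
      have h4 : π c = π t := by
        have : (2 : ℤ) • (π c - π t) = 0 := by
          rw [two_smul]
          have h5 : π c - π t + (π c - π t) = -(-π c + -π c + π t) - π t := by abel
          rw [h5, h]
          abel
        have h6 := h2 _ this
        exact sub_eq_zero.mp h6
      rw [h4]
      exact AddSubgroup.mem_zmultiples _
  · -- both -1
    apply main (π c)
    · rw [hps hp]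
      exact AddSubgroup.zero_mem _
    · rw [hqt hq]
      exact AddSubgroup.zero_mem _
    · exact AddSubgroup.mem_zmultiples _

theorem squares_trivial {Q : Type*} [Group Q] (a b : Q) (ha : a * a = 1) (hb : b * b = 1)
    (hab : a * b = b * a) (hgen : Subgroup.closure {a, b} = ⊤) (x : Q) : x * x = 1 := by
  have h1 : ∀ x : Q, Commute x a ∧ Commute x b := by
    intro x
    have hx : x ∈ Subgroup.closure {a, b} := by rw [hgen]; trivial
    induction hx using Subgroup.closure_induction with
    | mem x hx =>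
      rcases hx with rfl | rfl
      · exact ⟨Commute.refl _, hab⟩
      · exact ⟨hab.symm, Commute.refl _⟩
    | one => exact ⟨Commute.one_left _, Commute.one_left _⟩
    | mul x y _ _ hx hy => exact ⟨hx.1.mul_left hy.1, hx.2.mul_left hy.2⟩
    | inv x _ hx => exact ⟨hx.1.inv_left, hx.2.inv_left⟩
  have h2 : ∀ x y : Q, Commute x y := by
    intro x y
    have hy : y ∈ Subgroup.closure {a, b} := by rw [hgen]; trivial
    induction hy using Subgroup.closure_induction with
    | mem y hy =>
      rcases hy with rfl | rfl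
      · exact (h1 x).1
      · exact (h1 x).2
    | one => exact Commute.one_right _
    | mul y z _ _ hy hz => exact hy.mul_right hz
    | inv y _ hy => exact hy.inv_right
  have hx : x ∈ Subgroup.closure {a, b} := by rw [hgen]; trivial
  induction hx using Subgroup.closure_induction with
  | mem x hx =>
    rcases hx with rfl | rfl
    · exact ha
    · exact hb
  | one => simp
  | mul x y _ _ hx hy =>
    have : x * y * (x * y) = (x * x) * (y * y) := by
      rw [mul_assoc, mul_assoc, ← mul_assoc y x y, (h2 y x).eq, mul_assoc x y y]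
    rw [this, hx, hy, one_mul]
  | inv x _ hx =>
    rw [← mul_inv_rev, hx, inv_one]


theorem cyclic_core {P : Type*} [Group P] (A : Subgroup P) [hAn : A.Normal]
    (hA : ∀ h : P, h * h ∈ A)
    (hcl : ∀ B : Subgroup P, (∀ h : P, h * h ∈ B) → A ≤ B)
    (hcomm : ∀ u ∈ A, ∀ v ∈ A, u * v = v * u) (hexp : ∀ u ∈ A, u * u * u = 1)
    (a b : P) (hgen : Subgroup.closure {a, b} = ⊤) (m n : P) (hm : m ∈ A) (hn : n ∈ A)
    (hact : ∀ h : P, (h * m * h⁻¹ = m ∧ h * n * h⁻¹ = n) ∨
      (h * m * h⁻¹ = m⁻¹ ∧ h * n * h⁻¹ = n⁻¹))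
    (z : P) (hz : z * m * z⁻¹ = m⁻¹ ∧ z * n * z⁻¹ = n⁻¹) :
    ∃ e ∈ A, ∃ i j : ℤ, m = e ^ i ∧ n = e ^ j := by
  -- commutators lie in `A`
  have hcomA : ∀ h k : P, h * k * h⁻¹ * k⁻¹ ∈ A := by
    intro h k
    have : h * k * h⁻¹ * k⁻¹ = (h * k) * (h * k) * ((k⁻¹ * h⁻¹ * k) * (k⁻¹ * h⁻¹ * k)) *
        (k⁻¹ * k⁻¹) := by group
    rw [this]
    exact A.mul_mem (A.mul_mem (hA _) (hA _)) (hA _)
  have hinv : ∀ h w : P, w ∈ A → h * (h * w * h⁻¹) * h⁻¹ = w := by
    intro h w hw
    have h1 := hcomm (h * h) (hA h) w hw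
    have : h * (h * w * h⁻¹) * h⁻¹ = (h * h) * w * (h * h)⁻¹ := by group
    rw [this, h1, mul_inv_cancel_right]
  have hconj : ∀ h w : P, w ∈ A → h * w * h⁻¹ ∈ A := fun h w hw => hAn.conj_mem w hw h
  have hcc : ∀ h k w : P, w ∈ A → h * (k * w * k⁻¹) * h⁻¹ = k * (h * w * h⁻¹) * k⁻¹ := by
    intro h k w hw
    have h1 : h * (k * w * k⁻¹) * h⁻¹ =
        (h * k * h⁻¹ * k⁻¹) * (k * (h * w * h⁻¹) * k⁻¹) * (h * k * h⁻¹ * k⁻¹)⁻¹ := by group
    rw [h1, hcomm _ (hcomA h k) _ (hconj k _ (hconj h _ hw)), mul_inv_cancel_right]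
  let _ : CommGroup A := { (inferInstance : Group A) with
    mul_comm := fun u v => Subtype.ext (hcomm u.1 u.2 v.1 v.2) }
  let F : P → (Additive A →+ Additive A) := fun h =>
    MonoidHom.toAdditive (MulAut.conjNormal h : MulAut A).toMonoidHom
  have hF : ∀ (h : P) (w : Additive A), ((F h w).toMul : P) = h * (w.toMul : P) * h⁻¹ := by
    intro h w
    rfl
  have hext : ∀ {v w : Additive A}, (v.toMul : P) = (w.toMul : P) → v = w := by
    intro v w h
    exact Additive.toMul.injective (Subtype.ext h)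
  let s : Additive A := Additive.ofMul ⟨a * a, hA a⟩
  let t : Additive A := Additive.ofMul ⟨b * b, hA b⟩
  let c : Additive A := Additive.ofMul ⟨b * a * b⁻¹ * a⁻¹, hcomA b a⟩
  let m' : Additive A := Additive.ofMul ⟨m, hm⟩
  let n' : Additive A := Additive.ofMul ⟨n, hn⟩
  have h3 : ∀ w : Additive A, (3 : ℤ) • w = 0 := by
    intro w
    have h1 : (3 : ℤ) • w = w + w + w := by
      rw [show (3 : ℤ) = 1 + 1 + 1 by norm_num, add_smul, add_smul, one_smul]
    rw [h1]
    apply hext
    exact hexp _ w.toMul.2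
  -- the trivial case
  by_cases hpq : (a * m * a⁻¹ = m ∧ a * n * a⁻¹ = n) ∧ (b * m * b⁻¹ = m ∧ b * n * b⁻¹ = n)
  · have hall : ∀ h : P, h * m * h⁻¹ = m ∧ h * n * h⁻¹ = n := by
      intro h
      have hh : h ∈ Subgroup.closure {a, b} := by rw [hgen]; trivial
      induction hh using Subgroup.closure_induction with
      | mem x hx =>
        rcases hx with rfl | rfl
        · exact hpq.1
        · exact hpq.2
      | one => simp
      | mul x y _ _ hx hy =>
        constructor
        · have : x * y * m * (x * y)⁻¹ = x * (y * m * y⁻¹) * x⁻¹ := by group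
          rw [this, hy.1, hx.1]
        · have : x * y * n * (x * y)⁻¹ = x * (y * n * y⁻¹) * x⁻¹ := by group
          rw [this, hy.2, hx.2]
      | inv x _ hx =>
        constructor
        · nth_rewrite 1 [← hx.1]
          group
        · nth_rewrite 1 [← hx.2]
          group
    have h1 : ∀ w : P, w ∈ A → w = w⁻¹ → w = 1 := by
      intro w hw hw'
      have h2 : w * w = 1 := by
        nth_rewrite 2 [hw']
        exact mul_inv_cancel w
      have h4 := hexp w hw
      rw [h2, one_mul] at h4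
      exact h4
    refine ⟨1, A.one_mem, 0, 0, ?_, ?_⟩
    · rw [zpow_zero]
      exact h1 m hm ((hall z).1.symm.trans hz.1)
    · rw [zpow_zero]
      exact h1 n hn ((hall z).2.symm.trans hz.2)
  · -- choose signs
    have hsign : ∀ h : P, ∃ p : ℤ, (p = 1 ∨ p = -1) ∧ F h m' = p • m' ∧ F h n' = p • n' ∧
        (p = 1 → (h * m * h⁻¹ = m ∧ h * n * h⁻¹ = n)) := by
      intro h
      rcases hact h with h1 | h1
      · refine ⟨1, Or.inl rfl, ?_, ?_, fun _ => h1⟩
        · rw [one_smul]
          exact hext h1.1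
        · rw [one_smul]
          exact hext h1.2
      · refine ⟨-1, Or.inr rfl, ?_, ?_, fun h2 => absurd h2 (by norm_num)⟩
        · rw [neg_smul, one_smul]
          exact hext h1.1
        · rw [neg_smul, one_smul]
          exact hext h1.2
    obtain ⟨p, hp, hp1, hp2, hp3⟩ := hsign a
    obtain ⟨q, hq, hq1, hq2, hq3⟩ := hsign b
    have hmain := core h3 (F a) (F b) (fun w => hext (hinv a _ w.toMul.2))
      (fun w => hext (hinv b _ w.toMul.2)) (fun w => hext (hcc a b _ w.toMul.2)) s t c
      (hext (by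
        show a * (a * a) * a⁻¹ = a * a
        group))
      (hext (by
        show b * (b * b) * b⁻¹ = b * b
        group))
      (hext (by
        show b * (a * a) * b⁻¹ = (b * a * b⁻¹ * a⁻¹) * (a * (b * a * b⁻¹ * a⁻¹) * a⁻¹) * (a * a)
        group))
      (hext (by
        show a * (b * b) * a⁻¹ = (b * a * b⁻¹ * a⁻¹)⁻¹ * (b * (b * a * b⁻¹ * a⁻¹) * b⁻¹)⁻¹ * (b * b)
        have h1 : (b * a * b⁻¹ * a⁻¹)⁻¹ * (b * (b * a * b⁻¹ * a⁻¹) * b⁻¹)⁻¹ =
          (b * a * b⁻¹ * a⁻¹)⁻¹ * (b * (b * a * b⁻¹ * a⁻¹)⁻¹ * b⁻¹) := by group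
        rw [h1]
        group))
      (by
        intro B hs ht hc hBa hBb w
        let B' : Subgroup P := (AddSubgroup.toSubgroup' B : Subgroup A).map A.subtype
        have hB' : ∀ w : P, w ∈ B' ↔ ∃ hw : w ∈ A, (Additive.ofMul (⟨w, hw⟩ : A)) ∈ B := by
          intro w
          constructor
          · rintro ⟨x, hx, rfl⟩
            exact ⟨x.2, hx⟩
          · rintro ⟨hw, hx⟩
            exact ⟨⟨w, hw⟩, hx, rfl⟩
        have hBB : ∀ h : P, (∀ w ∈ B', h * w * h⁻¹ ∈ B') ∧ (∀ w ∈ B', h⁻¹ * w * h ∈ B') := by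
          have hone : ∀ h : P, (∀ w ∈ B, F h w ∈ B) →
              (∀ w ∈ B', h * w * h⁻¹ ∈ B') ∧ (∀ w ∈ B', h⁻¹ * w * h ∈ B') := by
            intro h hh
            have h1 : ∀ w ∈ B', h * w * h⁻¹ ∈ B' := by
              intro w hw
              obtain ⟨hw1, hw2⟩ := (hB' w).mp hw
              exact (hB' _).mpr ⟨hconj h w hw1, hh _ hw2⟩
            refine ⟨h1, ?_⟩
            intro w hw
            have h2 := h1 w hw
            obtain ⟨hw1, _⟩ := (hB' w).mp hw
            have h3 : h⁻¹ * w * h = h * w * h⁻¹ := by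
              have h4 := hinv h w hw1
              have h5 : h⁻¹ * (h * (h * w * h⁻¹) * h⁻¹) * h = h * w * h⁻¹ := by group
              rw [h4] at h5
              exact h5
            rw [h3]
            exact h2
          intro h
          have hh : h ∈ Subgroup.closure {a, b} := by rw [hgen]; trivial
          induction hh using Subgroup.closure_induction with
          | mem x hx =>
            rcases hx with rfl | rfl
            · exact hone _ hBa
            · exact hone _ hBb
          | one => simp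
          | mul x y _ _ hx hy =>
            constructor
            · intro w hw
              have := hx.1 _ (hy.1 w hw)
              convert this using 1
              group
            · intro w hw
              have := hy.2 _ (hx.2 w hw)
              convert this using 1
              group
          | inv x _ hx =>
            constructor
            · intro w hw
              have := hx.2 w hw
              rwa [inv_inv]
            · intro w hw
              have := hx.1 w hw
              rwa [inv_inv]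
        have hBn : B'.Normal := ⟨fun w hw h => (hBB h).1 w hw⟩
        have hsq : ∀ h : P, h * h ∈ B' := by
          intro h
          have h1 := squares_trivial (QuotientGroup.mk' B' a) (QuotientGroup.mk' B' b)
            (by
              rw [← map_mul]
              exact (QuotientGroup.eq_one_iff _).mpr ((hB' _).mpr ⟨hA a, hs⟩))
            (by
              rw [← map_mul]
              exact (QuotientGroup.eq_one_iff _).mpr ((hB' _).mpr ⟨hA b, ht⟩))
            (by
              have h2 : QuotientGroup.mk' B' (b * a * b⁻¹ * a⁻¹) = 1 :=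
                (QuotientGroup.eq_one_iff _).mpr ((hB' _).mpr ⟨hcomA b a, hc⟩)
              rw [map_mul, map_mul, map_mul, map_inv, map_inv, mul_inv_eq_one,
                mul_inv_eq_iff_eq_mul] at h2
              exact h2.symm)
            (by
              have h2 : (Subgroup.closure {a, b}).map (QuotientGroup.mk' B') = ⊤ := by
                rw [hgen, ← MonoidHom.range_eq_map]
                exact MonoidHom.range_eq_top.mpr (QuotientGroup.mk'_surjective B')
              rw [MonoidHom.map_closure, Set.image_pair] at h2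
              exact h2)
            (QuotientGroup.mk' B' h)
          rw [← map_mul] at h1
          exact (QuotientGroup.eq_one_iff _).mp h1
        have hle := hcl B' hsq
        obtain ⟨_, hw⟩ := (hB' _).mp (hle w.toMul.2)
        exact hw)
      p q hp hq (fun h => hpq ⟨hp3 h.1, hq3 h.2⟩) m' n' hp1 hq1 hp2 hq2
    obtain ⟨e, i, j, h1, h2⟩ := hmain
    refine ⟨(e.toMul : P), e.toMul.2, i, j, ?_, ?_⟩
    · have := congrArg (fun w : Additive A => (w.toMul : P)) h1
      exact this
    · have := congrArg (fun w : Additive A => (w.toMul : P)) h2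
      exact this


/-- The basic word. -/
def mm {Q : Type*} [Group Q] (s y z : Q) : Q :=
  s * (y * s * y⁻¹) * (z * s * z⁻¹)⁻¹ * (y * (z * s * z⁻¹) * y⁻¹)⁻¹

/-- The word which will be killed. -/
def ww {Q : Type*} [Group Q] (x y z : Q) : Q :=
  mm (x * x) y z * mm (y * y) x z * (mm (x * x) y z)⁻¹ * (mm (y * y) x z)⁻¹

theorem map_mm {Q R : Type*} [Group Q] [Group R] (f : Q →* R) (s y z : Q) :
    f (mm s y z) = mm (f s) (f y) (f z) := by
  simp [mm]

theorem map_ww {Q R : Type*} [Group Q] [Group R] (f : Q →* R) (x y z : Q) :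
    f (ww x y z) = ww (f x) (f y) (f z) := by
  simp [ww, map_mm]

theorem mm_act {P : Type*} [Group P] (A : Subgroup P) [hAn : A.Normal]
    (hA : ∀ h : P, h * h ∈ A)
    (hcomm : ∀ u ∈ A, ∀ v ∈ A, u * v = v * u) (s y z : P) (hs : s ∈ A) :
    (∀ x : P, x * s * x⁻¹ = s → x * mm s y z * x⁻¹ = mm s y z) ∧
    (y * mm s y z * y⁻¹ = mm s y z) ∧ (z * mm s y z * z⁻¹ = (mm s y z)⁻¹) := by
  have hcomA : ∀ h k : P, h * k * h⁻¹ * k⁻¹ ∈ A := by
    intro h k
    have : h * k * h⁻¹ * k⁻¹ = (h * k) * (h * k) * ((k⁻¹ * h⁻¹ * k) * (k⁻¹ * h⁻¹ * k)) *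
        (k⁻¹ * k⁻¹) := by group
    rw [this]
    exact A.mul_mem (A.mul_mem (hA _) (hA _)) (hA _)
  have hinv : ∀ h w : P, w ∈ A → h * (h * w * h⁻¹) * h⁻¹ = w := by
    intro h w hw
    have h1 := hcomm (h * h) (hA h) w hw
    have : h * (h * w * h⁻¹) * h⁻¹ = (h * h) * w * (h * h)⁻¹ := by group
    rw [this, h1, mul_inv_cancel_right]
  have hconj : ∀ h w : P, w ∈ A → h * w * h⁻¹ ∈ A := fun h w hw => hAn.conj_mem w hw h
  have hcc : ∀ h k w : P, w ∈ A → h * (k * w * k⁻¹) * h⁻¹ = k * (h * w * h⁻¹) * k⁻¹ := by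
    intro h k w hw
    have h1 : h * (k * w * k⁻¹) * h⁻¹ =
        (h * k * h⁻¹ * k⁻¹) * (k * (h * w * h⁻¹) * k⁻¹) * (h * k * h⁻¹ * k⁻¹)⁻¹ := by group
    rw [h1, hcomm _ (hcomA h k) _ (hconj k _ (hconj h _ hw)), mul_inv_cancel_right]
  have hexpand : ∀ x : P, x * mm s y z * x⁻¹ = (x * s * x⁻¹) * (x * (y * s * y⁻¹) * x⁻¹) *
      (x * (z * s * z⁻¹) * x⁻¹)⁻¹ * (x * (y * (z * s * z⁻¹) * y⁻¹) * x⁻¹)⁻¹ := by
    intro x
    unfold mm
    group
  have hp := hs
  have hq := hconj y s hs
  have hr := hconj z s hs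
  have ht := hconj y _ (hconj z s hs)
  refine ⟨?_, ?_, ?_⟩
  · intro x hx
    rw [hexpand, hx, hcc x y s hs, hx, hcc x z s hs, hx, hcc x y _ hr, hcc x z s hs, hx]
    rfl
  · rw [hexpand, hinv y s hs, hinv y _ hr]
    unfold mm
    generalize y * (z * s * z⁻¹) * y⁻¹ = t at *
    generalize y * s * y⁻¹ = q at *
    generalize z * s * z⁻¹ = r at *
    rw [hcomm q hq s hp, mul_assoc, ← mul_inv_rev, mul_assoc (s * q), ← mul_inv_rev,
      hcomm r hr t ht]
  · rw [hexpand, hcc z y s hs, hinv z s hs, hcc z y _ hr, hinv z s hs]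
    unfold mm
    generalize y * (z * s * z⁻¹) * y⁻¹ = t at *
    generalize y * s * y⁻¹ = q at *
    generalize z * s * z⁻¹ = r at *
    rw [mul_inv_rev, mul_inv_rev, mul_inv_rev, inv_inv, inv_inv, hcomm r hr t ht,
      mul_assoc, ← mul_inv_rev, ← mul_inv_rev s q, mul_assoc t r]
    rw [hcomm q hq s hp]

theorem word_trivial {Q : Type*} [Group Q]
    (hexp : ∀ u ∈ Subgroup.closure (Set.range fun h : Q => h * h), u * u * u = 1)
    (hcls : ∀ u ∈ Subgroup.closure (Set.range fun h : Q => h * h),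
      ∀ v ∈ Subgroup.closure (Set.range fun h : Q => h * h),
      ∀ w ∈ Subgroup.closure (Set.range fun h : Q => h * h),
      (u * v * u⁻¹ * v⁻¹) * w = w * (u * v * u⁻¹ * v⁻¹))
    (x y z : Q) (hxyz : Subgroup.closure {x, y, z} = ⊤)
    (a b : Q) (hab : Subgroup.closure {a, b} = ⊤) : ww x y z = 1 := by
  set O : Subgroup Q := Subgroup.closure (Set.range fun h : Q => h * h) with hO
  have hsqO : ∀ h : Q, h * h ∈ O := fun h => Subgroup.subset_closure ⟨h, rfl⟩
  have hOn : O.Normal := by
    refine ⟨fun w hw g => ?_⟩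
    induction hw using Subgroup.closure_induction with
    | mem w hw =>
      obtain ⟨h, rfl⟩ := hw
      have : g * (h * h) * g⁻¹ = (g * h * g⁻¹) * (g * h * g⁻¹) := by group
      show g * (h * h) * g⁻¹ ∈ O
      rw [this]
      exact hsqO _
    | one => simp [O.one_mem]
    | mul u v _ _ hu hv =>
      have : g * (u * v) * g⁻¹ = (g * u * g⁻¹) * (g * v * g⁻¹) := by group
      rw [this]
      exact O.mul_mem hu hv
    | inv u _ hu =>
      have : g * u⁻¹ * g⁻¹ = (g * u * g⁻¹)⁻¹ := by group
      rw [this]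
      exact O.inv_mem hu
  have hN : ⁅O, O⁆ ≤ Subgroup.centralizer (O : Set Q) := by
    rw [Subgroup.commutator_le]
    intro u hu v hv
    rw [Subgroup.mem_centralizer_iff]
    intro w hw
    rw [commutatorElement_def]
    exact (hcls u hu v hv w hw).symm
  let π : Q →* Q ⧸ ⁅O, O⁆ := QuotientGroup.mk' ⁅O, O⁆
  have hπ : Function.Surjective π := QuotientGroup.mk'_surjective _
  let A : Subgroup (Q ⧸ ⁅O, O⁆) := O.map π
  have hAn : A.Normal := hOn.map π hπ
  have hA : ∀ h : Q ⧸ ⁅O, O⁆, h * h ∈ A := by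
    intro h
    obtain ⟨h, rfl⟩ := hπ h
    exact ⟨h * h, hsqO h, map_mul _ _ _⟩
  have hcomm : ∀ u ∈ A, ∀ v ∈ A, u * v = v * u := by
    rintro _ ⟨u, hu, rfl⟩ _ ⟨v, hv, rfl⟩
    have h1 : π (u * v * u⁻¹ * v⁻¹) = 1 :=
      (QuotientGroup.eq_one_iff _).mpr (Subgroup.commutator_mem_commutator hu hv)
    rw [map_mul, map_mul, map_mul, map_inv, map_inv, mul_inv_eq_one,
      mul_inv_eq_iff_eq_mul] at h1
    exact h1
  have hexpA : ∀ u ∈ A, u * u * u = 1 := by
    rintro _ ⟨u, hu, rfl⟩
    rw [← map_mul, ← map_mul, hexp u hu, map_one]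
  have hgen : Subgroup.closure {π a, π b} = ⊤ := by
    have h2 : (Subgroup.closure {a, b}).map π = ⊤ := by
      rw [hab, ← MonoidHom.range_eq_map]
      exact MonoidHom.range_eq_top.mpr hπ
    rw [MonoidHom.map_closure, Set.image_pair] at h2
    exact h2
  have hgen3 : Subgroup.closure {π x, π y, π z} = ⊤ := by
    have h2 : (Subgroup.closure {x, y, z}).map π = ⊤ := by
      rw [hxyz, ← MonoidHom.range_eq_map]
      exact MonoidHom.range_eq_top.mpr hπ
    rw [MonoidHom.map_closure, Set.image_insert_eq, Set.image_pair] at h2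
    exact h2
  obtain ⟨m1, m2, m3⟩ := mm_act A hA hcomm (π x * π x) (π y) (π z) (hA _)
  obtain ⟨n1, n2, n3⟩ := mm_act A hA hcomm (π y * π y) (π x) (π z) (hA _)
  have m0 := m1 (π x) (by group)
  have n0 := n1 (π y) (by group)
  have hmO : ∀ s ∈ O, ∀ y z : Q, mm s y z ∈ O := by
    intro s hs y z
    unfold mm
    exact O.mul_mem (O.mul_mem (O.mul_mem hs (hOn.conj_mem _ hs _))
      (O.inv_mem (hOn.conj_mem _ hs _)))
      (O.inv_mem (hOn.conj_mem _ (hOn.conj_mem _ hs _) _))
  have hmA : mm (π x * π x) (π y) (π z) ∈ A := by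
    refine ⟨mm (x * x) y z, hmO _ (hsqO x) y z, ?_⟩
    rw [map_mm, map_mul]
  have hnA : mm (π y * π y) (π x) (π z) ∈ A := by
    refine ⟨mm (y * y) x z, hmO _ (hsqO y) x z, ?_⟩
    rw [map_mm, map_mul]
  have hcore := cyclic_core A hA (by
      intro B hB
      refine Subgroup.map_le_iff_le_comap.mpr ((Subgroup.closure_le _).mpr ?_)
      rintro _ ⟨h, rfl⟩
      show π (h * h) ∈ B
      rw [map_mul]
      exact hB _) hcomm hexpA (π a) (π b) hgen _ _ hmA hnA (by
      intro h
      have hh : h ∈ Subgroup.closure {π x, π y, π z} := by rw [hgen3]; trivial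
      induction hh using Subgroup.closure_induction with
      | mem w hw =>
        rcases hw with rfl | rfl | rfl
        · exact Or.inl ⟨m0, n2⟩
        · exact Or.inl ⟨m2, n0⟩
        · exact Or.inr ⟨m3, n3⟩
      | one => left; simp
      | mul u v _ _ hu hv =>
        have e : ∀ w : Q ⧸ ⁅O, O⁆, u * v * w * (u * v)⁻¹ = u * (v * w * v⁻¹) * u⁻¹ := by
          intro w; group
        have e' : ∀ w : Q ⧸ ⁅O, O⁆, u * w⁻¹ * u⁻¹ = (u * w * u⁻¹)⁻¹ := by
          intro w; group
        rcases hu with hu | hu <;> rcases hv with hv | hv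
        · left; rw [e, e, hv.1, hv.2]; exact hu
        · right; rw [e, e, hv.1, hv.2, e', e', hu.1, hu.2]; exact ⟨rfl, rfl⟩
        · right; rw [e, e, hv.1, hv.2]; exact hu
        · left; rw [e, e, hv.1, hv.2, e', e', hu.1, hu.2, inv_inv, inv_inv]; exact ⟨rfl, rfl⟩
      | inv u _ hu =>
        have e : ∀ v w : Q ⧸ ⁅O, O⁆, u * v * u⁻¹ = w → u⁻¹ * w * u⁻¹⁻¹ = v := by
          rintro v w rfl; group
        have e' : ∀ v : Q ⧸ ⁅O, O⁆, u * v * u⁻¹ = v⁻¹ → u⁻¹ * v * u⁻¹⁻¹ = v⁻¹ := by
          intro v hv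
          have h1 : u * v⁻¹ * u⁻¹ = v := by
            have : u * v⁻¹ * u⁻¹ = (u * v * u⁻¹)⁻¹ := by group
            rw [this, hv, inv_inv]
          exact e _ _ h1
        rcases hu with hu | hu
        · exact Or.inl ⟨e _ _ hu.1, e _ _ hu.2⟩
        · exact Or.inr ⟨e' _ hu.1, e' _ hu.2⟩) (π z) ⟨m3, n3⟩
  obtain ⟨_, ⟨e, he, rfl⟩, i, j, h1, h2⟩ := hcore
  -- lift back
  have hlift : ∀ (v : Q) (k : ℤ), π v = π e ^ k → ∃ c ∈ ⁅O, O⁆, v = e ^ k * c := by
    intro v k hv
    refine ⟨(e ^ k)⁻¹ * v, ?_, by group⟩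
    rw [← map_zpow] at hv
    exact QuotientGroup.eq.mp hv.symm
  obtain ⟨c, hc, h1'⟩ := hlift (mm (x * x) y z) i (by rw [map_mm, map_mul]; exact h1)
  obtain ⟨d, hd, h2'⟩ := hlift (mm (y * y) x z) j (by rw [map_mm, map_mul]; exact h2)
  have hcO : c ∈ O := Subgroup.commutator_le_left O O hc
  have hdO : d ∈ O := Subgroup.commutator_le_left O O hd
  have hcc : ∀ w ∈ O, w * c = c * w := fun w hw =>
    (Subgroup.mem_centralizer_iff.mp (hN hc)) w hw
  have hdd : ∀ w ∈ O, w * d = d * w := fun w hw =>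
    (Subgroup.mem_centralizer_iff.mp (hN hd)) w hw
  have hei : e ^ i ∈ O := O.zpow_mem he i
  have hej : e ^ j ∈ O := O.zpow_mem he j
  have hfin : mm (x * x) y z * mm (y * y) x z = mm (y * y) x z * mm (x * x) y z := by
    rw [h1', h2']
    calc e ^ i * c * (e ^ j * d) = e ^ i * (c * e ^ j) * d := by group
      _ = e ^ i * (e ^ j * c) * d := by rw [hcc _ hej]
      _ = e ^ j * e ^ i * (c * d) := by
          have : e ^ i * e ^ j = e ^ j * e ^ i := by rw [← zpow_add, ← zpow_add, add_comm]
          rw [← mul_assoc (e ^ i), this]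
          group
      _ = e ^ j * (e ^ i * d) * c := by rw [hdd c hcO]; group
      _ = e ^ j * (d * e ^ i) * c := by rw [hdd _ hei]
      _ = e ^ j * d * (e ^ i * c) := by group
  unfold ww
  rw [hfin]
  group


/-! ### A group of order 108 -/


/-- A group of order 108: `Heis(F_3)` extended by two sign changes. -/
@[ext]
structure GG where
  /-- first sign -/
  e : ℤˣ
  /-- second sign -/
  f : ℤˣ
  /-- first coordinate -/
  a : ZMod 3
  /-- second coordinate -/
  b : ZMod 3
  /-- central coordinate -/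
  c : ZMod 3
deriving DecidableEq

/-- A sign as an element of `ZMod 3`. -/
def sg (e : ℤˣ) : ZMod 3 := ((e : ℤ) : ZMod 3)

theorem sg_mul (e f : ℤˣ) : sg (e * f) = sg e * sg f := by
  simp [sg]

theorem sg_one : sg 1 = 1 := by
  simp [sg]

theorem sg_sq (e : ℤˣ) : sg e * sg e = 1 := by
  rw [← sg_mul, Int.units_mul_self, sg_one]

instance : Mul GG := ⟨fun x y => ⟨x.e * y.e, x.f * y.f, x.a + sg x.e * y.a, x.b + sg x.f * y.b,
  x.c + sg x.e * sg x.f * y.c + x.a * (sg x.f * y.b)⟩⟩

instance : One GG := ⟨⟨1, 1, 0, 0, 0⟩⟩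

instance : Inv GG := ⟨fun x => ⟨x.e, x.f, -(sg x.e * x.a), -(sg x.f * x.b),
  sg x.e * sg x.f * (x.a * x.b - x.c)⟩⟩

theorem mul_def' (x y : GG) : x * y = ⟨x.e * y.e, x.f * y.f, x.a + sg x.e * y.a,
  x.b + sg x.f * y.b, x.c + sg x.e * sg x.f * y.c + x.a * (sg x.f * y.b)⟩ := rfl

theorem one_def' : (1 : GG) = ⟨1, 1, 0, 0, 0⟩ := rfl

theorem inv_def' (x : GG) : x⁻¹ = ⟨x.e, x.f, -(sg x.e * x.a), -(sg x.f * x.b),
  sg x.e * sg x.f * (x.a * x.b - x.c)⟩ := rfl

instance : Group GG where
  mul_assoc x y z := by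
    simp only [mul_def', sg_mul, mul_assoc]
    ext <;> simp only <;> ring
  one_mul x := by
    simp only [mul_def', one_def', sg_one]
    ext <;> simp
  mul_one x := by
    simp only [mul_def', one_def']
    ext <;> simp
  inv_mul_cancel x := by
    simp only [mul_def', one_def', inv_def', Int.units_mul_self]
    have h1 := sg_sq x.e
    have h2 := sg_sq x.f
    ext
    · rfl
    · rfl
    · simp
    · simp
    · show sg x.e * sg x.f * (x.a * x.b - x.c) + sg x.e * sg x.f * x.c +
        -(sg x.e * x.a) * (sg x.f * x.b) = 0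
      ring

/-- The normal subgroup of order 27. -/
def CC : Subgroup GG where
  carrier := {x | x.e = 1 ∧ x.f = 1}
  mul_mem' := by
    rintro x y ⟨h1, h2⟩ ⟨h3, h4⟩
    exact ⟨by rw [mul_def']; simp [h1, h3], by rw [mul_def']; simp [h2, h4]⟩
  one_mem' := ⟨rfl, rfl⟩
  inv_mem' := by
    rintro x ⟨h1, h2⟩
    exact ⟨h1, h2⟩

theorem sq_mem_CC (x : GG) : x * x ∈ CC :=
  ⟨Int.units_mul_self x.e, Int.units_mul_self x.f⟩

theorem closure_sq_le : Subgroup.closure (Set.range fun h : GG => h * h) ≤ CC := by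
  rw [Subgroup.closure_le]
  rintro _ ⟨h, rfl⟩
  exact sq_mem_CC h

theorem three (a : ZMod 3) : a + a + a = 0 := by revert a; decide

theorem CC_exp (u : GG) (hu : u ∈ CC) : u * u * u = 1 := by
  obtain ⟨e, f, a, b, c⟩ := u
  obtain ⟨h1, h2⟩ := hu
  simp only at h1 h2
  subst h1 h2
  simp only [mul_def', one_def', sg_one, one_mul, mul_one]
  ext
  · rfl
  · rfl
  · exact three a
  · exact three b
  · have h : c + c + a * b + c + (a + a) * b = (c + c + c) + (a + a + a) * b := by ring
    show c + c + a * b + c + (a + a) * b = 0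
    rw [h, three, three]
    ring

theorem CC_comm (u v w : GG) (hu : u ∈ CC) (hv : v ∈ CC) (hw : w ∈ CC) :
    (u * v * u⁻¹ * v⁻¹) * w = w * (u * v * u⁻¹ * v⁻¹) := by
  obtain ⟨e, f, a, b, c⟩ := u
  obtain ⟨h1, h2⟩ := hu
  simp only at h1 h2
  subst h1 h2
  obtain ⟨e, f, a', b', c'⟩ := v
  obtain ⟨h1, h2⟩ := hv
  simp only at h1 h2
  subst h1 h2
  obtain ⟨e, f, a'', b'', c''⟩ := w
  obtain ⟨h1, h2⟩ := hw
  simp only at h1 h2
  subst h1 h2
  simp only [mul_def', inv_def', sg_one, one_mul, mul_one]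
  ext <;> simp only <;> ring

/-- a test element -/
def xu : GG := ⟨1, 1, 1, 0, 0⟩
/-- a test element -/
def xv : GG := ⟨1, 1, 0, 1, 0⟩
/-- a test element -/
def xt : GG := ⟨-1, -1, 0, 0, 0⟩
/-- first generator -/
def ga : GG := ⟨-1, 1, 0, 1, 0⟩
/-- second generator -/
def gb : GG := ⟨1, -1, 1, 0, 0⟩

theorem ww_ne : ww xu xv xt ≠ 1 := by decide

theorem gen_GG : Subgroup.closure {ga, gb} = ⊤ := by
  rw [eq_top_iff]
  rintro x -
  set S := Subgroup.closure {ga, gb}
  have h1 : ga ∈ S := Subgroup.subset_closure (by simp)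
  have h2 : gb ∈ S := Subgroup.subset_closure (by simp)
  have key : ∀ (e f : ℤˣ) (a b c : ZMod 3), (⟨e, f, a, b, c⟩ : GG) =
      (gb ^ 4) ^ a.val * (ga ^ 4) ^ b.val *
      ((gb ^ 4) * (ga ^ 4) * (gb ^ 4)⁻¹ * (ga ^ 4)⁻¹) ^ (c - a * b).val *
      (if e = 1 then 1 else ga ^ 3) * (if f = 1 then 1 else gb ^ 3) := by
    decide
  obtain ⟨e, f, a, b, c⟩ := x
  rw [key e f a b c]
  refine S.mul_mem (S.mul_mem (S.mul_mem (S.mul_mem ?_ ?_) ?_) ?_) ?_
  · exact S.pow_mem (S.pow_mem h2 _) _
  · exact S.pow_mem (S.pow_mem h1 _) _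
  · exact S.pow_mem (S.mul_mem (S.mul_mem (S.mul_mem (S.pow_mem h2 _) (S.pow_mem h1 _))
      (S.inv_mem (S.pow_mem h2 _))) (S.inv_mem (S.pow_mem h1 _))) _
  · split_ifs
    · exact S.one_mem
    · exact S.pow_mem h1 _
  · split_ifs
    · exact S.one_mem
    · exact S.pow_mem h2 _


/-! ### The variety generated by `GG` -/

/-- All laws of `GG`. -/
def WW : Set (FreeGroup ℕ) := {w | Law w GG}

theorem law_of_surjective {G : Type u} {H : Type v} [Group G] [Group H] (φ : G →* H)
    (hφ : Function.Surjective φ) (w : FreeGroup ℕ) (h : Law w G) : Law w H := by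
  intro f
  choose f' hf' using fun n => hφ (f n)
  have h1 : FreeGroup.lift f w = φ (FreeGroup.lift f' w) := by
    have : FreeGroup.lift f = φ.comp (FreeGroup.lift f') := by
      apply FreeGroup.ext_hom
      intro n
      simp [hf']
    rw [this]
    rfl
  rw [h1, h f', map_one]

theorem relFree_law (W : Set (FreeGroup ℕ)) (m : ℕ) : InVariety W (RelFree W m) := by
  intro w hw f
  choose f' hf' using fun n => QuotientGroup.mk'_surjective (verbal W m) (f n)
  have h1 : FreeGroup.lift f w = QuotientGroup.mk' (verbal W m) (FreeGroup.lift f' w) := by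
    have : FreeGroup.lift f = (QuotientGroup.mk' (verbal W m)).comp (FreeGroup.lift f') := by
      apply FreeGroup.ext_hom
      intro n
      simp only [FreeGroup.lift_apply_of, MonoidHom.comp_apply]
      exact (hf' n).symm
    rw [this]
    rfl
  rw [h1]
  exact (QuotientGroup.eq_one_iff _).mpr (Subgroup.subset_normalClosure ⟨w, hw, f', rfl⟩)

/-- The homomorphism from a relatively free group given by images of the generators. -/
def relLift (W : Set (FreeGroup ℕ)) (m : ℕ) {G : Type u} [Group G] (hG : InVariety W G)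
    (s : Fin m → G) : RelFree W m →* G :=
  QuotientGroup.lift (verbal W m) (FreeGroup.lift s) (by
    have : verbal W m ≤ (FreeGroup.lift s : FreeGroup (Fin m) →* G).ker := by
      apply Subgroup.normalClosure_le_normal
      rintro _ ⟨w, hw, f, rfl⟩
      show FreeGroup.lift s (FreeGroup.lift f w) = 1
      have h1 : FreeGroup.lift s (FreeGroup.lift f w) =
          FreeGroup.lift (fun n => FreeGroup.lift s (f n)) w := by
        have : (FreeGroup.lift s : FreeGroup (Fin m) →* G).comp (FreeGroup.lift f) =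
            FreeGroup.lift (fun n => FreeGroup.lift s (f n)) := by
          apply FreeGroup.ext_hom
          intro n
          simp
        rw [← this]
        rfl
      rw [h1]
      exact hG w hw _
    exact fun x hx => this hx)

theorem relLift_mk (W : Set (FreeGroup ℕ)) (m : ℕ) {G : Type u} [Group G] (hG : InVariety W G)
    (s : Fin m → G) (x : FreeGroup (Fin m)) :
    relLift W m hG s (QuotientGroup.mk' (verbal W m) x) = FreeGroup.lift s x := rfl

theorem gg_in : InVariety WW GG := fun _ hw => hw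

theorem generates_two : RankGenerates.{0} WW 2 := by
  intro w hw H _ hH
  have h1 : Law w GG := by
    refine law_of_surjective (relLift WW 2 gg_in ![ga, gb]) ?_ w hw
    rw [← MonoidHom.range_eq_top, eq_top_iff, ← gen_GG, Subgroup.closure_le]
    rintro x (rfl | rfl)
    · exact ⟨QuotientGroup.mk' _ (FreeGroup.of 0), by rw [relLift_mk]; simp⟩
    · exact ⟨QuotientGroup.mk' _ (FreeGroup.of 1), by rw [relLift_mk]; simp⟩
  exact hH w h1

/-- In the variety generated by `GG`, a countable group satisfies the two facts about its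
subgroup generated by squares. -/
theorem facts {Q : Type u} [Group Q] [Countable Q] (hQ : InVariety WW Q) :
    (∀ u ∈ Subgroup.closure (Set.range fun h : Q => h * h), u * u * u = 1) ∧
    (∀ u ∈ Subgroup.closure (Set.range fun h : Q => h * h),
      ∀ v ∈ Subgroup.closure (Set.range fun h : Q => h * h),
      ∀ w ∈ Subgroup.closure (Set.range fun h : Q => h * h),
      (u * v * u⁻¹ * v⁻¹) * w = w * (u * v * u⁻¹ * v⁻¹)) := by
  obtain ⟨f, hf⟩ := exists_surjective_nat Q
  have hlift : ∀ u ∈ Subgroup.closure (Set.range fun h : Q => h * h),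
      ∃ p ∈ Subgroup.closure (Set.range fun h : FreeGroup ℕ => h * h),
        FreeGroup.lift f p = u := by
    intro u hu
    induction hu using Subgroup.closure_induction with
    | mem u hu =>
      obtain ⟨h, rfl⟩ := hu
      obtain ⟨n, hn⟩ := hf h
      refine ⟨FreeGroup.of n * FreeGroup.of n, Subgroup.subset_closure ⟨_, rfl⟩, ?_⟩
      simp [hn]
    | one => exact ⟨1, Subgroup.one_mem _, map_one _⟩
    | mul u v _ _ hu hv =>
      obtain ⟨p, hp, rfl⟩ := hu
      obtain ⟨q, hq, rfl⟩ := hv
      exact ⟨p * q, Subgroup.mul_mem _ hp hq, map_mul _ _ _⟩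
    | inv u _ hu =>
      obtain ⟨p, hp, rfl⟩ := hu
      exact ⟨p⁻¹, Subgroup.inv_mem _ hp, map_inv _ _⟩
  have hmap : ∀ (h : ℕ → GG), ∀ p ∈ Subgroup.closure (Set.range fun h : FreeGroup ℕ => h * h),
      FreeGroup.lift h p ∈ CC := by
    intro h p hp
    have h1 : Subgroup.closure (Set.range fun h : FreeGroup ℕ => h * h) ≤
        CC.comap (FreeGroup.lift h) := by
      rw [Subgroup.closure_le]
      rintro _ ⟨x, rfl⟩
      show FreeGroup.lift h (x * x) ∈ CC
      rw [map_mul]
      exact sq_mem_CC _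
    exact h1 hp
  constructor
  · intro u hu
    obtain ⟨p, hp, rfl⟩ := hlift u hu
    rw [← map_mul, ← map_mul]
    refine hQ (p * p * p) ?_ f
    intro h
    rw [map_mul, map_mul]
    exact CC_exp _ (hmap h p hp)
  · intro u hu v hv w hw
    obtain ⟨p, hp, rfl⟩ := hlift u hu
    obtain ⟨q, hq, rfl⟩ := hlift v hv
    obtain ⟨r, hr, rfl⟩ := hlift w hw
    have h1 : FreeGroup.lift f ((p * q * p⁻¹ * q⁻¹) * r * (r * (p * q * p⁻¹ * q⁻¹))⁻¹) = 1 := by
      refine hQ _ ?_ f
      intro h
      simp only [map_mul, map_inv]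
      rw [mul_inv_eq_one]
      exact CC_comm _ _ _ (hmap h p hp) (hmap h q hq) (hmap h r hr)
    simp only [map_mul, map_inv] at h1
    exact mul_inv_eq_one.mp h1

/-- The three free generators of the relatively free group of rank three. -/
def gen3 (i : Fin 3) : RelFree WW 3 := QuotientGroup.mk' _ (FreeGroup.of i)

theorem gen3_closure : Subgroup.closure {gen3 0, gen3 1, gen3 2} = ⊤ := by
  have h1 : (Subgroup.closure (Set.range (FreeGroup.of : Fin 3 → _))).map
      (QuotientGroup.mk' (verbal WW 3)) = ⊤ := by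
    rw [FreeGroup.closure_range_of, ← MonoidHom.range_eq_map]
    exact MonoidHom.range_eq_top.mpr (QuotientGroup.mk'_surjective _)
  rw [MonoidHom.map_closure] at h1
  rw [← h1]
  congr 1
  ext x
  constructor
  · rintro (rfl | rfl | rfl)
    · exact ⟨_, ⟨0, rfl⟩, rfl⟩
    · exact ⟨_, ⟨1, rfl⟩, rfl⟩
    · exact ⟨_, ⟨2, rfl⟩, rfl⟩
  · rintro ⟨_, ⟨i, rfl⟩, rfl⟩
    fin_cases i
    · exact Or.inl rfl
    · exact Or.inr (Or.inl rfl)
    · exact Or.inr (Or.inr rfl)

/-- The element that dies in all two-generator quotients. -/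
def gel : RelFree WW 3 := ww (gen3 0) (gen3 1) (gen3 2)

theorem gel_ne : gel ≠ 1 := by
  intro h
  have h1 := congrArg (relLift WW 3 gg_in ![xu, xv, xt]) h
  rw [gel, map_ww, map_one, gen3, gen3, gen3, relLift_mk, relLift_mk, relLift_mk] at h1
  simp only [FreeGroup.lift_apply_of] at h1
  exact ww_ne h1

theorem gel_dies (N : Subgroup (RelFree WW 3)) [N.Normal]
    (hN : KGenerator 2 (RelFree WW 3 ⧸ N)) : gel ∈ N := by
  obtain ⟨s, hs⟩ := hN
  have hQ : InVariety WW (RelFree WW 3 ⧸ N) := by
    intro w hw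
    exact law_of_surjective (QuotientGroup.mk' N) (QuotientGroup.mk'_surjective N) w
      (relFree_law WW 3 w hw)
  have hc1 : Countable (RelFree WW 3) := (QuotientGroup.mk'_surjective (verbal WW 3)).countable
  have hc : Countable (RelFree WW 3 ⧸ N) := (QuotientGroup.mk'_surjective N).countable
  obtain ⟨f1, f2⟩ := facts hQ
  have h1 := word_trivial f1 f2 (QuotientGroup.mk' N (gen3 0)) (QuotientGroup.mk' N (gen3 1))
    (QuotientGroup.mk' N (gen3 2)) (by
      have h2 : (Subgroup.closure {gen3 0, gen3 1, gen3 2}).map (QuotientGroup.mk' N) = ⊤ := by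
        rw [gen3_closure, ← MonoidHom.range_eq_map]
        exact MonoidHom.range_eq_top.mpr (QuotientGroup.mk'_surjective N)
      rw [MonoidHom.map_closure, Set.image_insert_eq, Set.image_pair] at h2
      exact h2) (s 0) (s 1) (by
      rw [← hs]
      congr 1
      ext x
      constructor
      · rintro (rfl | rfl)
        · exact ⟨0, rfl⟩
        · exact ⟨1, rfl⟩
      · rintro ⟨i, rfl⟩
        fin_cases i
        · exact Or.inl rfl
        · exact Or.inr rfl)
  rw [← map_ww] at h1
  exact (QuotientGroup.eq_one_iff _).mp h1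

/-- It is not true that for every variety of groups and all `k < n` such that the relatively free
group of rank `k` generates the variety, the relatively free group of rank `n` is residually
`k`-generator. -/
theorem result : ¬ ∀ (W : Set (FreeGroup ℕ)) (k n : ℕ), k < n → RankGenerates.{0} W k →
    ResiduallyKGenerator k (RelFree W n) := by
  intro h
  obtain ⟨N, hN, h1, h2⟩ := h WW 2 3 (by norm_num) generates_two gel gel_ne
  exact h1 (gel_dies N h2)

end Pool.Agent.Results.MP_49fec2_al.NotResidual
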